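import Pool.Agent.Helper5.SR.St3
import Pool.Agent.Helper71.TU.X5aux

/-!
# Project SR (MP_d6acc2_an), module ATT: assembly of the attachment
-/

set_option autoImplicit false

namespace Pool.Agent.Helper41.SR

open Complex MeasureTheory Set Metric Filter Topology
open scoped Real
open Pool.Agent.Helper60.Rel (LH tc Admissible ClassS)
open Pool.Agent.Helper51.LT
open Helper5.SR

private lemma exists_min_ATT {m : ℕ} (c : Fin (m + 1) → ℝ) (hc : ∀ l, 0 < c l) (c₁ : ℝ)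
    (hc₁ : 0 < c₁) : ∃ c' : ℝ, 0 < c' ∧ c' ≤ c₁ ∧ ∀ l, c' ≤ c l := by
  obtain ⟨k, -, hk⟩ := Finset.exists_min_image (Finset.univ : Finset (Fin (m + 1))) c
    ⟨0, Finset.mem_univ _⟩
  exact ⟨min c₁ (c k), lt_min hc₁ (hc k), min_le_left _ _,
    fun l => (min_le_right _ _).trans (hk l (Finset.mem_univ _))⟩

private lemma exists_max_ATT {m : ℕ} (C : Fin (m + 1) → ℝ) (hC : ∀ l, 0 < C l) :
    ∃ C' : ℝ, 0 < C' ∧ ∀ l, C l ≤ C' := by
  obtain ⟨k, -, hk⟩ := Finset.exists_max_image (Finset.univ : Finset (Fin (m + 1))) C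
    ⟨0, Finset.mem_univ _⟩
  exact ⟨C k, hC k, fun l => hk l (Finset.mem_univ _)⟩

/-- the angles -/
private lemma angles_ATT (m M₀ : ℕ) (θ δ' : ℝ) (hδ' : 0 < δ') (hδ1 : δ' ≤ 1) :
    ∃ (M : ℕ) (θl : Fin (m + 1) → ℝ), M₀ ≤ M ∧ 1 ≤ M ∧ (∀ l, θl l ∈ Ioo θ (θ + δ')) ∧
      Function.Injective θl ∧ Function.Injective (fun l => exp (θl l * I)) ∧
      ∀ l, ∃ n : ℤ, (M : ℝ) * θl l = 2 * π * n := by
  have hpi : 0 < π := Real.pi_pos
  obtain ⟨M₁, hM₁⟩ := exists_nat_gt (2 * π * (m + 2) / δ')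
  obtain ⟨M, hM, hM1, hM2⟩ : ∃ M : ℕ, M₀ ≤ M ∧ 1 ≤ M ∧ 2 * π * (m + 2) < M * δ' := by
    refine ⟨max (max M₀ 1) M₁, (le_max_left _ _).trans (le_max_left _ _),
      (le_max_right _ _).trans (le_max_left _ _), ?_⟩
    rw [div_lt_iff₀ hδ'] at hM₁
    refine lt_of_lt_of_le hM₁ (mul_le_mul_of_nonneg_right ?_ hδ'.le)
    exact_mod_cast le_max_right _ _
  have hMr : (0 : ℝ) < M := by exact_mod_cast hM1
  obtain ⟨j₀, hj1, hj2⟩ : ∃ j₀ : ℤ, (M : ℝ) * θ < 2 * π * j₀ ∧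
      2 * π * j₀ ≤ (M : ℝ) * θ + 2 * π := by
    refine ⟨⌊(M : ℝ) * θ / (2 * π)⌋ + 1, ?_, ?_⟩
    · have h1 := Int.lt_floor_add_one ((M : ℝ) * θ / (2 * π))
      rw [div_lt_iff₀ (by positivity)] at h1
      push_cast
      linarith
    · have h1 := Int.floor_le ((M : ℝ) * θ / (2 * π))
      rw [le_div_iff₀ (by positivity)] at h1
      push_cast
      linarith
  obtain ⟨θl, hθl⟩ : ∃ θl : Fin (m + 1) → ℝ, ∀ l, (M : ℝ) * θl l = 2 * π * (j₀ + (l : ℕ)) :=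
    ⟨fun l => 2 * π * (j₀ + (l : ℕ)) / M, fun l => by field_simp⟩
  have hmem : ∀ l, θl l ∈ Ioo θ (θ + δ') := by
    intro l
    have hl : ((l : ℕ) : ℝ) ≤ m := by
      exact_mod_cast Nat.lt_succ_iff.mp l.2
    have hl0 : (0 : ℝ) ≤ ((l : ℕ) : ℝ) := Nat.cast_nonneg _
    have h2 := hθl l
    constructor
    · have h3 : (M : ℝ) * θ < M * θl l := by
        rw [h2]
        nlinarith
      exact lt_of_mul_lt_mul_left h3 hMr.le
    · have h3 : (M : ℝ) * θl l < M * (θ + δ') := by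
        rw [h2]
        have h4 : 2 * π * ((l : ℕ) : ℝ) ≤ 2 * π * m :=
          mul_le_mul_of_nonneg_left hl (by positivity)
        nlinarith
      exact lt_of_mul_lt_mul_left h3 hMr.le
  have hinj : Function.Injective θl := by
    intro l k hlk
    have h1 := hθl l
    have h2 := hθl k
    rw [hlk, h2] at h1
    have h3 : ((k : ℕ) : ℝ) = ((l : ℕ) : ℝ) := by
      have h4 := mul_left_cancel₀ (by positivity : (2 * π : ℝ) ≠ 0) h1
      linarith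
    have h5 : (k : ℕ) = (l : ℕ) := by exact_mod_cast h3
    exact (Fin.ext h5).symm
  refine ⟨M, θl, hM, hM1, hmem, hinj, ?_, ?_⟩
  · intro l k hlk
    apply hinj
    obtain ⟨n, hn⟩ := Complex.exp_eq_exp_iff_exists_int.1 hlk
    have h1 : (θl l : ℂ) = θl k + n * (2 * π) := by
      have h2 : (θl l : ℂ) * I = (θl k + n * (2 * π)) * I := by
        rw [hn]
        ring
      exact mul_right_cancel₀ I_ne_zero h2
    have h3 : θl l = θl k + n * (2 * π) := by exact_mod_cast h1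
    have h4 := hmem l
    have h5 := hmem k
    have h6 : |(n : ℝ) * (2 * π)| < 1 := by
      rw [abs_lt]
      constructor
      · linarith [h4.1, h5.2]
      · linarith [h4.2, h5.1]
    have h7 : n = 0 := by
      by_contra hne
      have h8 : (1 : ℝ) ≤ |(n : ℝ)| := by exact_mod_cast Int.one_le_abs hne
      rw [abs_mul, abs_of_pos (by positivity : (0 : ℝ) < 2 * π)] at h6
      have h9 : (3 : ℝ) < π := Real.pi_gt_three
      nlinarith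
    rw [h3, h7]
    simp
  · intro l
    refine ⟨j₀ + (l : ℕ), ?_⟩
    rw [hθl l]
    push_cast
    ring

theorem hAtt (hStr : StStr) (hHbu : StHbu) (hAtb : StAtb) (hAtc : StAtc) : StAtt := by
  intro m f R hR hf hf0 η r hη hr hr1 M₀
  have h0R : (0 : ℂ) ∈ ball (0 : ℂ) R := mem_ball_self (by linarith)
  have hd0 : deriv f 0 ≠ 0 := Pool.TU.X5.deriv_ne_zero_of_injOn isOpen_ball hf.1 hf.2 h0R
  obtain ⟨d, hd⟩ : ∃ d, d = ‖deriv f 0‖ := ⟨_, rfl⟩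
  have hdpos : 0 < d := by
    rw [hd]
    exact norm_pos_iff.2 hd0
  obtain ⟨B, hB0, hB⟩ : ∃ B : ℝ, 0 ≤ B ∧ ∀ z ∈ closedBall (0 : ℂ) 1, ‖f z‖ ≤ B := by
    obtain ⟨B, hB⟩ := (isCompact_closedBall (0 : ℂ) 1).exists_bound_of_continuousOn
      (hf.1.continuousOn.mono (closedBall_subset_ball hR))
    exact ⟨B, (norm_nonneg _).trans (hB 0 (mem_closedBall_self zero_le_one)), hB⟩
  -- the small parameter
  obtain ⟨e, he0, he1, he2, he3⟩ : ∃ e : ℝ, 0 < e ∧ e ≤ 1 ∧ e ≤ d / 2 ∧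
      e * (3 + 2 * (B + 1) / d) ≤ η := by
    have hq : 0 < 3 + 2 * (B + 1) / d := by positivity
    refine ⟨min (min 1 (d / 2)) (η / (3 + 2 * (B + 1) / d)),
      lt_min (lt_min one_pos (by positivity)) (by positivity),
      (min_le_left _ _).trans (min_le_left _ _), (min_le_left _ _).trans (min_le_right _ _), ?_⟩
    rw [← le_div_iff₀ hq]
    exact min_le_right _ _
  obtain ⟨f₀, a, θ, δ, κ, Λ, hstd, hclose, hdclose⟩ := hStr f R e hR hf hf0 he0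
  have hd₀ : d / 2 ≤ ‖deriv f₀ 0‖ := by
    have h1 : ‖deriv f 0‖ ≤ ‖deriv f₀ 0‖ + ‖deriv f₀ 0 - deriv f 0‖ := by
      have h2 : deriv f 0 = deriv f₀ 0 - (deriv f₀ 0 - deriv f 0) := by ring
      calc ‖deriv f 0‖ = ‖deriv f₀ 0 - (deriv f₀ 0 - deriv f 0)‖ := by rw [← h2]
        _ ≤ _ := norm_sub_le _ _
    rw [← hd] at h1
    linarith
  have hd₀pos : 0 < ‖deriv f₀ 0‖ := lt_of_lt_of_le (by positivity) hd₀
  have hd₀ne : deriv f₀ 0 ≠ 0 := norm_pos_iff.1 hd₀pos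
  obtain ⟨lam, hlam⟩ : ∃ lam : ℂ, lam * deriv f₀ 0 = deriv f 0 :=
    ⟨deriv f 0 / deriv f₀ 0, div_mul_cancel₀ _ hd₀ne⟩
  have hlam1 : ‖lam - 1‖ ≤ 2 * e / d := by
    have h1 : (lam - 1) * deriv f₀ 0 = -(deriv f₀ 0 - deriv f 0) := by
      rw [sub_mul, hlam]
      ring
    have h2 : ‖lam - 1‖ * ‖deriv f₀ 0‖ ≤ e := by
      rw [← norm_mul, h1, norm_neg]
      exact hdclose
    have h3 : ‖lam - 1‖ * (d / 2) ≤ e :=
      (mul_le_mul_of_nonneg_left hd₀ (norm_nonneg _)).trans h2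
    rw [le_div_iff₀ hdpos]
    linarith
  have hlam2 : ‖lam‖ ≤ 2 := by
    have h1 : ‖lam‖ ≤ ‖lam - 1‖ + 1 := by
      have h2 : lam = (lam - 1) + 1 := by ring
      calc ‖lam‖ = ‖(lam - 1) + 1‖ := by rw [← h2]
        _ ≤ ‖lam - 1‖ + ‖(1 : ℂ)‖ := norm_add_le _ _
        _ = ‖lam - 1‖ + 1 := by rw [norm_one]
    have h3 : 2 * e / d ≤ 1 := by
      rw [div_le_one hdpos]
      linarith
    linarith
  obtain ⟨ε₀, hε₀, hε⟩ := hAtc f₀ a θ δ κ Λ hstd r e hr hr1 he0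
  obtain ⟨L₀, hL⟩ := hε ε₀ hε₀ le_rfl
  obtain ⟨L, hL1, hL2⟩ : ∃ L : ℝ, L₀ ≤ L ∧ 2 * √ε₀ < L :=
    ⟨max L₀ (2 * √ε₀ + 1), le_max_left _ _, lt_of_lt_of_le (by linarith) (le_max_right _ _)⟩
  have hK := hL L hL1 hL2
  obtain ⟨hBU, hdh, -, c₁, hc₁, hc₁'⟩ := hHbu f₀ a θ δ κ Λ ε₀ L hstd hε₀ hL2
  obtain ⟨δ', hδ', hδ1, ξ, hξinj, hξ⟩ := hAtb f₀ a θ δ κ Λ ε₀ L hstd hε₀ hL2
  obtain ⟨M, θl, hMM, hM1, hmem, hinj, hexp, hint⟩ := angles_ATT m M₀ θ δ' hδ' hδ1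
  have hloc : ∀ l : Fin (m + 1), ∃ c C : ℝ, 0 < c ∧ 0 < C ∧ ∀ x ∈ ball (0 : ℂ) 1,
      ‖x - exp (θl l * I)‖ ≤ c → ‖hh f₀ θ ε₀ L x - ξ (θl l)‖ ≤ C * ‖x - exp (θl l * I)‖ ∧
        c ≤ ‖deriv (hh f₀ θ ε₀ L) x‖ := fun l => (hξ (θl l) (hmem l)).2
  choose cl Cl hcl hCl hlocl using hloc
  obtain ⟨c, hc, hcc₁, hccl⟩ := exists_min_ATT cl hcl c₁ hc₁
  obtain ⟨C, hC, hCCl⟩ := exists_max_ATT Cl hCl
  refine ⟨M, hh f₀ θ ε₀ L, θl, fun l => ξ (θl l), c, C, hMM, ⟨hM1, hBU, hdh, hc, hC, hexp, ?_,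
    fun l => (hξ (θl l) (hmem l)).1, hint, ?_, ?_⟩, ?_⟩
  · intro l k hlk
    exact hinj (hξinj (hmem l) (hmem k) hlk)
  · intro l x hx hxc
    obtain ⟨h1, h2⟩ := hlocl l x hx (hxc.trans (hccl l))
    exact ⟨h1.trans (mul_le_mul_of_nonneg_right (hCCl l) (norm_nonneg _)), (hccl l).trans h2⟩
  · intro x hx
    have h1 : 0 ≤ 1 - ‖x‖ := by
      rw [mem_ball_zero_iff] at hx
      linarith
    exact (mul_le_mul_of_nonneg_right hcc₁ h1).trans (hc₁' x hx)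
  · intro K hKU z hz
    have hzb : z ∈ ball (0 : ℂ) 1 := mem_ball_zero_iff.2 (lt_of_le_of_lt hz hr1)
    obtain ⟨X, hX⟩ : ∃ X, X = (K (hh f₀ θ ε₀ L z) - K (hh f₀ θ ε₀ L 0)) *
        (deriv f₀ 0 / (deriv K (hh f₀ θ ε₀ L 0) * deriv (hh f₀ θ ε₀ L) 0)) := ⟨_, rfl⟩
    have h1 := hK K hKU z hz
    rw [← hX] at h1
    have h2 : (K (hh f₀ θ ε₀ L z) - K (hh f₀ θ ε₀ L 0)) *
        (deriv f 0 / (deriv K (hh f₀ θ ε₀ L 0) * deriv (hh f₀ θ ε₀ L) 0)) = lam * X := by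
      rw [hX, ← hlam]
      ring
    rw [h2]
    have h3 : lam * X - f z = lam * (X - f₀ z) + (lam - 1) * f₀ z + (f₀ z - f z) := by ring
    have h4 : ‖f₀ z‖ ≤ B + 1 := by
      have h5 : f₀ z = f z + (f₀ z - f z) := by ring
      calc ‖f₀ z‖ = ‖f z + (f₀ z - f z)‖ := by rw [← h5]
        _ ≤ ‖f z‖ + ‖f₀ z - f z‖ := norm_add_le _ _
        _ ≤ B + 1 := add_le_add (hB z (ball_subset_closedBall hzb)) ((hclose z hzb).trans he1)
    rw [h3]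
    calc ‖lam * (X - f₀ z) + (lam - 1) * f₀ z + (f₀ z - f z)‖
        ≤ ‖lam * (X - f₀ z)‖ + ‖(lam - 1) * f₀ z‖ + ‖f₀ z - f z‖ := norm_add₃_le
      _ = ‖lam‖ * ‖X - f₀ z‖ + ‖lam - 1‖ * ‖f₀ z‖ + ‖f₀ z - f z‖ := by rw [norm_mul, norm_mul]
      _ ≤ 2 * e + 2 * e / d * (B + 1) + e := by
          refine add_le_add (add_le_add ?_ ?_) (hclose z hzb)
          · exact mul_le_mul hlam2 h1 (norm_nonneg _) (by norm_num)
          · exact mul_le_mul hlam1 h4 (norm_nonneg _) (by positivity)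
      _ = e * (3 + 2 * (B + 1) / d) := by ring
      _ ≤ η := he3

end Pool.Agent.Helper41.SR
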